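import Pool.Agent.H.MP_0e6b5f_nt.H52.AvgFinal

/-!
# Uniform boundedness for 100 percent of the Henon maps over any number field
-/

namespace Pool.Agent.Results.MP_0e6b5f_nt.Average

open Module Filter Topology
open Pool.Agent.H.MP_0e6b5f_nt Pool.Agent.H.MP_0e6b5f_nt.H52

/-- For every number field `K` with a `ℚ`-basis `b`, every degree `d ≥ 2` and every `B`, for
100 percent of the vectors `c` in `K^{d+2}` (ordered by the heights of their rational coordinates
with respect to `b`) the Henon map `(x, y) ↦ (y, c_0 + c_1 y + ... + c_d y^d - c_{d+1} x)` has all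
its periodic points `P` with `[K(P) : K] ≤ B` of exact period at most `B [K : ℚ]` and of degree
`[K(P) : K] ≥ d`; in particular there are at most `∑_{s ≤ B [K : ℚ]} d ^ s` of them, and none if
`B < d`. -/
theorem result (K : Type*) [Field K] [NumberField K] (J : Type*) [Fintype J] (b : Basis J ℚ K)
    (d B : ℕ) (hd : 2 ≤ d) :
    Tendsto (fun H : ℕ => (({c ∈ coefBox b d H | c (Fin.castSucc (Fin.last d)) ≠ 0 ∧
      c (Fin.last (d + 1)) ≠ 0 ∧ ¬ FewPeriodic B c}).ncard : ℝ) / ((coefBox b d H).ncard : ℝ))
      atTop (𝓝 0) :=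
  avg_density b d B hd

end Pool.Agent.Results.MP_0e6b5f_nt.Average
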