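import Pool.Agent.H.MP_0e6b5f_nt.Df.Fin

/-!
# Rational periodic points of Henon maps and the defects of the fixed points
-/

namespace Pool.Agent.Results.MP_0e6b5f_nt.RationalDefect

open Polynomial NumberField
open Pool.Agent.H.MP_0e6b5f_nt

/-- For every degree `d ≥ 2` there are constants `c₁` and `R₀ ≥ 2` such that, for all number fields
`K ⊆ L`, every Henon map `f(x, y) = (y, F(y) - δ x)` of degree `d` over `K` with
`F = (1 + δ) X + a ∏ (X - ζ i)`, `ζ i ∈ L`, every good place `w` of `L` and every finite set `T` of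
finite places of `L`, the map `f` has at most `c₁ (Y (1 + log Y)) ^ 4` periodic points with
coordinates in `K`, where `Y = 1 + ([L : ℚ] + h) / (|log R| + ∑ defects)`. Here `R` is the
normalised diameter of the set of the `ζ i` at `w`, and the defect at `v ∈ T` is
`max(0, ∑ log⁺ (distance of ζ i from K) - log⁺ (diameter))`. A place is good if it is finite and
`1 < R`, or infinite and `R₀ ≤ R`, or above a real place of `K` with `0 < R ≤ 1 / R₀` where `d` is
even or `a (1 + δ)` is not negative. -/
theorem result (d : ℕ) (hd : 2 ≤ d) :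
    ∃ c₁ R₀ : ℝ, 2 ≤ R₀ ∧ ∀ (K L : Type*) [Field K] [NumberField K] [Field L] [NumberField L]
      [Algebra K L] (F : K[X]) (δ : K) (ζ : Fin d → L) (w : AbsoluteValue L ℝ)
      (T : Finset (FinitePlace L)), F.natDegree = d → δ ≠ 0 →
      F.map (algebraMap K L) = C (1 + algebraMap K L δ) * X +
        C (algebraMap K L F.leadingCoeff) * ∏ i, (X - C (ζ i)) →
      GoodPlace R₀ w F.leadingCoeff δ ζ →
      (perRat F δ).Finite ∧ ((perRat F δ).ncard : ℝ) ≤
        c₁ * (defectRatio w T F.leadingCoeff δ ζ *
          (1 + Real.log (defectRatio w T F.leadingCoeff δ ζ))) ^ 4 :=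
  Df.defect_bound2 d hd

end Pool.Agent.Results.MP_0e6b5f_nt.RationalDefect
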