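import Pool.Agent.H.MP_0e6b5f_nt.Schur

/-!
# Uniform boundedness for generalized Henon maps whose polynomial is of Schur type
-/

namespace Pool.Agent.Results.MP_0e6b5f_nt.SchurFamily

open Polynomial Module
open Pool.Agent.H.MP_0e6b5f_nt

theorem result (D B d : ℕ) (_hD : 1 ≤ D) (_hB : 1 ≤ B) (hd : 2 ≤ d) :
    ∃ C₀ : ℕ, ∀ (K : Type*) [Field K] [NumberField K], finrank ℚ K = D →
      ∀ (F : K[X]) (δ : K), SchurType K (B * D) F → F.natDegree = d → δ ≠ 0 →
        (perLE F δ B).encard ≤ C₀ := by
  obtain ⟨p, _, hp, hprim⟩ := exists_primitive_prime (d := d) (by omega) 0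
  refine ⟨d ^ bigM (p ^ (2 * (B * D))), ?_⟩
  intro K _ _ hK F δ hSF hF hδ
  apply encard_le_of_iterate hd hF (bigM_pos _)
  rintro P ⟨⟨n, hn, hP⟩, hPB⟩
  obtain ⟨W, hW⟩ := exists_valuation_above (K := K) hp
  have hN : finrank ℚ K *
      finrank K (IntermediateField.adjoin K ({P.1, P.2} : Set (AlgebraicClosure K))) ≤ B * D := by
    rw [hK, mul_comm]; exact Nat.mul_le_mul hPB le_rfl
  exact point_period_mono W.valuation hp hW F δ hδ P hN (fun L hL hLN => by
    have hcz : CharZero L := charZero_of_injective_algebraMap (algebraMap K L).injective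
    have hfdQ : FiniteDimensional ℚ L := FiniteDimensional.trans ℚ K L
    have hdeg : finrank ℚ L ≤ B * D := by
      rw [← Module.finrank_mul_finrank ℚ K L]; exact hLN
    have hpL : W.valuation.comap (algebraMap L (AlgebraicClosure K)) (p : L) < 1 := by
      rw [Valuation.comap_apply, map_natCast]; exact hW
    exact (hSF.smono hdeg _ hp hpL (by rw [hF]; exact hprim)).umono _) hn hP

end Pool.Agent.Results.MP_0e6b5f_nt.SchurFamily
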