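import Pool.Agent.H.MP_0e6b5f_nt.Sp.Deg

/-!
# Periodic points of bounded degree of Henon maps and the number of tight places of bad reduction
-/

namespace Pool.Agent.Results.MP_0e6b5f_nt.TightPlaces

open NumberField Module Polynomial Height
open Pool.Agent.H.MP_0e6b5f_nt

/-- For all `D`, `B` and `d ≥ 2` there are a constant `C` and numbers `c 0, c 1, ...` such that for
every number field `K` of degree `D`, every Henon map `f(x, y) = (y, F(y) - δ x)` of degree `d` over
`K` and every `κ > 0` there is an `N ≤ C (Y (1 + log Y)) ^ 4` such that `f` has at most `N` periodic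
points with coordinates in `E` for each extension `E` of `K` of degree at most `B`, and at most
`d ^ (N + 1)` periodic points `P` with `[K(P) : K] ≤ B`. Here `Y = 1 + 1 / κ + s' + min(h(δ), c s)`,
where `s` is the (finite) number of finite places of `K` of bad reduction and `s'` is the number of
those among them which lie below a `κ`-tight place of an extension `E` of `K` of degree at most `B`:
a place at which the `E`-rational defect is less than `κ log R`, where `R` is the diameter of the
set of the fixed points. -/
theorem result (D B d : ℕ) (hd : 2 ≤ d) : ∃ (C : ℝ) (c : ℕ → ℝ),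
    ∀ (K : Type*) [Field K] [NumberField K],
    finrank ℚ K = D → ∀ (F : K[X]) (δ : K), F.natDegree = d → δ ≠ 0 → ∀ κ : ℝ, 0 < κ →
      tightPlacesLE κ B d F δ ⊆ badPlaces F δ ∧ (badPlaces F δ).Finite ∧
      ∃ N : ℕ, (N : ℝ) ≤ C * ((1 + 1 / κ + (tightPlacesLE κ B d F δ).ncard +
        min (logHeight₁ δ) (c (badPlaces F δ).ncard)) *
        (1 + Real.log (1 + 1 / κ + (tightPlacesLE κ B d F δ).ncard +
          min (logHeight₁ δ) (c (badPlaces F δ).ncard)))) ^ 4 ∧
      (∀ E : IntermediateField K (AlgebraicClosure K), FiniteDimensional K E → finrank K E ≤ B →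
        (perIn F δ E).Finite ∧ (perIn F δ E).ncard ≤ N) ∧
      (perLE F δ B).Finite ∧ (perLE F δ B).ncard ≤ d ^ (N + 1) :=
  Sp.deg_bound D B d hd

end Pool.Agent.Results.MP_0e6b5f_nt.TightPlaces
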